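import Mathlib

/-!
# Normal subgroups of the profinite group `SL_2(ℤ_p)`

For every prime `p` the group `G = SL_2(ℤ_p)` is an uncountable compact metrizable
non-archimedean group, and every normal subgroup of `G` (no closedness, no Borel or analyticity
assumption) is finite or of finite index. So `G` has no normal subgroup at all which is
uncountable and of uncountable index.
-/

set_option autoImplicit false

open Matrix Topology

namespace Pool.Agent.Results.MP_847604_al.SpecialLinear

section algebra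

variable {R : Type*} [CommRing R]

/-- the matrix with rows `(a, b)` and `(c, d)` as an element of `SL_2(R)` -/
def mk4 (a b c d : R) (h : a * d - b * c = 1) : SpecialLinearGroup (Fin 2) R :=
  ⟨!![a, b; c, d], by rw [det_fin_two_of, h]⟩

theorem exists_mk4 (g : SpecialLinearGroup (Fin 2) R) :
    ∃ (a b c d : R) (h : a * d - b * c = 1), g = mk4 a b c d h := by
  refine ⟨g 0 0, g 0 1, g 1 0, g 1 1, ?_, ?_⟩
  · have := g.det_coe
    rw [det_fin_two] at this
    exact this
  · ext i j
    fin_cases i <;> fin_cases j <;> rfl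

theorem ext4 {a b c d a' b' c' d' : R} (h : a * d - b * c = 1) (h' : a' * d' - b' * c' = 1)
    (ha : a = a') (hb : b = b') (hc : c = c') (hd : d = d') : mk4 a b c d h = mk4 a' b' c' d' h' := by
  subst ha hb hc hd; rfl

theorem mk4_mul {a b c d a' b' c' d' : R} (h : a * d - b * c = 1) (h' : a' * d' - b' * c' = 1) :
    mk4 a b c d h * mk4 a' b' c' d' h' =
      mk4 (a * a' + b * c') (a * b' + b * d') (c * a' + d * c') (c * b' + d * d')
        (by linear_combination a' * d' * h + h' - b' * c' * h) := by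
  apply Subtype.ext
  change !![a, b; c, d] * !![a', b'; c', d'] = _
  rw [Matrix.mul_fin_two]
  rfl

theorem one_eq : (1 : SpecialLinearGroup (Fin 2) R) = mk4 1 0 0 1 (by ring) := by
  apply Subtype.ext
  change (1 : Matrix (Fin 2) (Fin 2) R) = !![1, 0; 0, 1]
  exact Matrix.one_fin_two

theorem mk4_inv {a b c d : R} (h : a * d - b * c = 1) :
    (mk4 a b c d h)⁻¹ = mk4 d (-b) (-c) a (by linear_combination h) := by
  rw [inv_eq_iff_mul_eq_one, mk4_mul, one_eq]
  apply ext4 <;> first | linear_combination h | ring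

variable {N : Subgroup (SpecialLinearGroup (Fin 2) R)}

/-- A noncentral element of a normal subgroup has a conjugate with nonzero lower left entry. -/
theorem exists_c_ne [IsDomain R] (hN : N.Normal) {g : SpecialLinearGroup (Fin 2) R} (hg : g ∈ N)
    (hg1 : g ≠ 1) (hg2 : g ≠ mk4 (-1) 0 0 (-1) (by ring)) :
    ∃ (a b c d : R) (h : a * d - b * c = 1), mk4 a b c d h ∈ N ∧ c ≠ 0 := by
  obtain ⟨a, b, c, d, h, rfl⟩ := exists_mk4 g
  by_cases hc : c = 0
  · subst hc
    by_cases hb : b = 0
    · subst hb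
      have h1 : a * d = 1 := by linear_combination h
      have hw : (1 : R) * 1 - 0 * 1 = 1 := by ring
      have h2 := hN.conj_mem _ hg (mk4 1 0 1 1 hw)
      rw [mk4_inv, mk4_mul, mk4_mul] at h2
      refine ⟨_, _, _, _, _, h2, ?_⟩
      intro h0
      have h3 : a = d := by linear_combination h0
      subst h3
      have h4 : (a - 1) * (a + 1) = 0 := by linear_combination h1
      rcases mul_eq_zero.1 h4 with h5 | h5
      · have h6 : a = 1 := by linear_combination h5
        apply hg1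
        rw [one_eq]
        exact ext4 _ _ h6 rfl rfl h6
      · have h6 : a = -1 := by linear_combination h5
        exact hg2 (ext4 _ _ h6 rfl rfl h6)
    · have hw : (0 : R) * 0 - 1 * (-1) = 1 := by ring
      have h2 := hN.conj_mem _ hg (mk4 0 1 (-1) 0 hw)
      rw [mk4_inv, mk4_mul, mk4_mul] at h2
      refine ⟨_, _, _, _, _, h2, ?_⟩
      intro h0
      apply hb
      linear_combination -h0
  · exact ⟨a, b, c, d, h, hg, hc⟩

/-- From an element with lower left entry `c`, and a unit `u = 1 + c y` with inverse `v`, the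
normal subgroup contains all upper elementary matrices with entry in `(v ^ 4 - 1) R`. -/
theorem upper_mem (hN : N.Normal) {a b c d : R} (h : a * d - b * c = 1) (hg : mk4 a b c d h ∈ N)
    {y u v : R} (hu : u = 1 + c * y) (huv : u * v = 1) (t : R) :
    mk4 1 ((v ^ 4 - 1) * t) 0 1 (by ring) ∈ N := by
  -- `v² - 1 = c z`
  have hv : v ^ 2 - 1 = c * (-(y * v * (v + 1))) := by
    have e1 : v - 1 = -(c * y * v) := by
      rw [hu] at huv
      linear_combination huv
    linear_combination (v + 1) * e1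
  set z := -(y * v * (v + 1)) with hz
  -- conjugation by `(1, x; 0, 1)` with `x = a z`, then by `diag (u, v)`
  have hw1 : (1 : R) * 1 - (a * z) * 0 = 1 := by ring
  have hw2 : u * v - 0 * 0 = 1 := by linear_combination huv
  have h1 := hN.conj_mem _ hg (mk4 1 (a * z) 0 1 hw1)
  have h2 := hN.conj_mem _ h1 (mk4 u 0 0 v hw2)
  have h3 := N.mul_mem (N.inv_mem hg) h2
  simp only [mk4_mul, mk4_inv] at h3
  -- the product is upper triangular with diagonal `(v ^ 2, u ^ 2)`
  have key : ∃ β : R, ∃ hβ : v ^ 2 * u ^ 2 - β * 0 = 1, mk4 (v ^ 2) β 0 (u ^ 2) hβ ∈ N := by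
    refine ⟨d * (u * ((a + a * z * c) * -(a * z) + (b + a * z * d)) * u) -
      b * (v * (c * -(a * z) + d) * u), by linear_combination (u * v + 1) * huv, ?_⟩
    convert h3 using 1
    apply ext4
    · linear_combination -(a * d * v ^ 2) * huv - v ^ 2 * h + (a * d * u * v) * hv
    · ring
    · linear_combination (a * c * v ^ 2) * huv - (a * c * u * v) * hv
    · linear_combination -(a ^ 2 * c * z * u * v - a * d * u * v) * huv - u ^ 2 * h -
        (a * d * u ^ 2 - u ^ 2 * a ^ 2 * (c * z)) * hv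
  obtain ⟨β, hβ, hT⟩ := key
  have hw3 : (1 : R) * 1 - t * 0 = 1 := by ring
  have h4 := hN.conj_mem _ (N.inv_mem hT) (mk4 1 t 0 1 hw3)
  have h5 := N.mul_mem hT h4
  simp only [mk4_mul, mk4_inv] at h5
  convert h5 using 1
  apply ext4
  · linear_combination -(u * v + 1) * huv
  · linear_combination t * (u * v + 1) * huv
  · ring
  · linear_combination -(u * v + 1) * huv

/-- If `N` contains the upper elementary matrices with entries in `δ R`, then it contains all
matrices `(a, b; c, d)` with `a ≡ 1` modulo `δ ^ 2` and `b ≡ c ≡ 0` modulo `δ`, for a unit `a`. -/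
theorem mem_of_upper (hN : N.Normal) {δ : R}
    (hup : ∀ t : R, mk4 1 (δ * t) 0 1 (by ring) ∈ N) {a b c d : R} (h : a * d - b * c = 1)
    {a' : R} (ha' : a * a' = 1) {x y z : R} (hx : a = 1 + δ ^ 2 * x) (hy : b = δ * y)
    (hz : c = δ * z) : mk4 a b c d h ∈ N := by
  have hlo : ∀ t : R, mk4 1 0 (δ * t) 1 (by ring) ∈ N := by
    intro t
    have hw : (0 : R) * 0 - 1 * (-1) = 1 := by ring
    have h2 := hN.conj_mem _ (hup (-t)) (mk4 0 1 (-1) 0 hw)
    simp only [mk4_mul, mk4_inv] at h2
    convert h2 using 1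
    apply ext4 <;> ring
  -- the diagonal part
  have hw2 : a * a' - 0 * 0 = 1 := by linear_combination ha'
  have hdg : mk4 a 0 0 a' hw2 ∈ N := by
    have h3 := N.mul_mem (N.mul_mem (hlo (-(x * a'))) (hup 1))
      (N.mul_mem (hlo x) (hup (-a')))
    simp only [mk4_mul] at h3
    convert h3 using 1
    subst hx
    apply ext4
    · ring
    · linear_combination δ * ha'
    · linear_combination (δ * x) * ha'
    · linear_combination (1 - δ ^ 2 * x * a') * ha'
  have h4 := N.mul_mem (N.mul_mem (hlo (z * a')) hdg) (hup (a' * y))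
  simp only [mk4_mul] at h4
  convert h4 using 1
  apply ext4
  · ring
  · linear_combination hy - δ * y * ha'
  · linear_combination hz - δ * z * ha'
  · linear_combination (-d - a' * δ ^ 2 * y * z) * ha' + a' * h + a' * c * hy + a' * δ * y * hz

end algebra

section topology

variable (p : ℕ) [hp : Fact p.Prime]

/-- the group `SL_2(ℤ_p)` with its usual topology -/
abbrev G : Type := SpecialLinearGroup (Fin 2) ℤ_[p]

instance : CompactSpace (G p) :=
  haveI : CompactSpace (Matrix (Fin 2) (Fin 2) ℤ_[p]) :=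
    inferInstanceAs (CompactSpace (Fin 2 → Fin 2 → ℤ_[p]))
  SpecialLinearGroup.isClosedEmbedding_val.compactSpace

instance : TopologicalSpace.MetrizableSpace (G p) :=
  haveI : TopologicalSpace.MetrizableSpace (Matrix (Fin 2) (Fin 2) ℤ_[p]) :=
    inferInstanceAs (TopologicalSpace.MetrizableSpace (Fin 2 → Fin 2 → ℤ_[p]))
  SpecialLinearGroup.isClosedEmbedding_val.isEmbedding.metrizableSpace

instance : TotallyDisconnectedSpace (G p) :=
  haveI : TotallyDisconnectedSpace (Matrix (Fin 2) (Fin 2) ℤ_[p]) :=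
    inferInstanceAs (TotallyDisconnectedSpace (Fin 2 → Fin 2 → ℤ_[p]))
  inferInstanceAs (TotallyDisconnectedSpace
    {A : Matrix (Fin 2) (Fin 2) ℤ_[p] // A.det = 1})

theorem nonarch : NonarchimedeanGroup (G p) where
  is_nonarchimedean := by
    intro U hU
    obtain ⟨V, hVU, hV, h1⟩ := mem_nhds_iff.1 hU
    obtain ⟨H, hH⟩ := ProfiniteGrp.exist_openNormalSubgroup_sub_open_nhds_of_one hV h1
    exact ⟨H.toOpenSubgroup, fun x hx => hVU (hH hx)⟩

theorem uncountable_padicInt : Uncountable ℤ_[p] := by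
  rw [← not_countable_iff]
  intro hc
  have h1 : Cardinal.continuum ≤ Cardinal.mk (Metric.ball (0 : ℚ_[p]) 1) :=
    continuum_le_cardinal_of_isOpen ℚ_[p] Metric.isOpen_ball ⟨0, by simp⟩
  let φ : Metric.ball (0 : ℚ_[p]) 1 → ℤ_[p] := fun x => ⟨x.1, by
        have := x.2
        rw [mem_ball_zero_iff] at this
        exact this.le⟩
  have h2 : Function.Injective φ := by
    intro x y hxy
    exact Subtype.ext (congrArg (fun z : ℤ_[p] => (z : ℚ_[p])) hxy)
  have h3 : Countable (Metric.ball (0 : ℚ_[p]) 1) := h2.countable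
  have h4 := Cardinal.mk_le_aleph0_iff.2 h3
  exact absurd (h1.trans h4) (not_le.2 Cardinal.aleph0_lt_continuum)

theorem uncountable_G : Uncountable (G p) := by
  have := uncountable_padicInt p
  have h : Function.Injective
      (fun t : ℤ_[p] => (mk4 1 t 0 1 (by ring) : G p)) := by
    intro x y hxy
    have := congrArg (fun g : G p => g 0 1) hxy
    simpa [mk4] using this
  exact h.uncountable

variable {p}

theorem dvd_of_norm_le {a b : ℤ_[p]} (hb : b ≠ 0) (h : ‖a‖ ≤ ‖b‖) : b ∣ a := by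
  have hb' : (b : ℚ_[p]) ≠ 0 := fun h0 => hb (Subtype.ext h0)
  have hn : ‖(a : ℚ_[p]) / b‖ ≤ 1 := by
    rw [norm_div]
    exact div_le_one_of_le₀ (by simpa using h) (norm_nonneg _)
  refine ⟨⟨(a : ℚ_[p]) / b, hn⟩, ?_⟩
  apply Subtype.ext
  change (a : ℚ_[p]) = b * (a / b)
  field_simp

theorem two_add_ne (z : ℤ_[p]) : (2 : ℤ_[p]) + p ^ 2 * z ≠ 0 := by
  intro h
  have h1 : ((2 : ℤ) : ℤ_[p]) = p ^ 2 * (-z) := by
    push_cast
    linear_combination h
  have h2 : ‖((2 : ℤ) : ℤ_[p])‖ ≤ (p : ℝ) ^ (-((2 : ℕ) : ℤ)) := by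
    rw [PadicInt.norm_le_pow_iff_mem_span_pow, h1]
    exact Ideal.mul_mem_right _ _ (Ideal.mem_span_singleton_self _)
  rw [PadicInt.norm_int_le_pow_iff_dvd] at h2
  have h3 := Int.le_of_dvd (by norm_num) h2
  have h4 : (2 : ℤ) ≤ p := by exact_mod_cast hp.out.two_le
  nlinarith

theorem fourth_ne {c u : ℤ_[p]} (hc : c ≠ 0) (hu : u = 1 + c * p ^ 2) : u ^ 4 ≠ 1 := by
  intro h
  have h1 : (u - 1) * ((u + 1) * (u ^ 2 + 1)) = 0 := by linear_combination h
  rcases mul_eq_zero.1 h1 with h2 | h2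
  · have hp0 : (p : ℤ_[p]) ≠ 0 := by exact_mod_cast hp.out.ne_zero
    have h3 : c * (p : ℤ_[p]) ^ 2 = 0 := by linear_combination h2 - hu
    rcases mul_eq_zero.1 h3 with h4 | h4
    · exact hc h4
    · exact hp0 (pow_eq_zero_iff (by norm_num) |>.1 h4)
  · rcases mul_eq_zero.1 h2 with h3 | h3
    · exact two_add_ne (p := p) c (by linear_combination h3 - hu)
    · refine two_add_ne (p := p) (2 * c + c ^ 2 * p ^ 2) ?_
      subst hu
      linear_combination h3

theorem isUnit_of_norm_sub_one_lt {a : ℤ_[p]} (h : ‖a - 1‖ < 1) : IsUnit a := by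
  rw [PadicInt.isUnit_iff]
  by_contra hne
  have h1 : ‖a‖ < 1 := lt_of_le_of_ne (PadicInt.norm_le_one a) hne
  have h2 : ‖a - (a - 1)‖ ≤ max ‖a‖ ‖a - 1‖ := by
    have := PadicInt.nonarchimedean a (-(a - 1))
    rwa [norm_neg, ← sub_eq_add_neg] at this
  have h3 : a - (a - 1) = 1 := by ring
  rw [h3, norm_one] at h2
  exact absurd h2 (not_le.2 (max_lt h1 h))

/-- A normal subgroup containing a matrix with nonzero lower left entry is open. -/
theorem isOpen_of_mem {N : Subgroup (G p)} (hN : N.Normal) {a b c d : ℤ_[p]}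
    (h : a * d - b * c = 1) (hg : mk4 a b c d h ∈ N) (hc : c ≠ 0) : IsOpen (N : Set (G p)) := by
  have hunit : IsUnit (1 + c * (p : ℤ_[p]) ^ 2) := by
    apply isUnit_of_norm_sub_one_lt
    have e : 1 + c * (p : ℤ_[p]) ^ 2 - 1 = (c * p) * p := by ring
    rw [e, norm_mul]
    have h1 : ‖c * (p : ℤ_[p])‖ ≤ 1 := PadicInt.norm_le_one _
    have h2 : ‖(p : ℤ_[p])‖ < 1 := by
      rw [PadicInt.norm_p]
      exact inv_lt_one_of_one_lt₀ (by exact_mod_cast hp.out.one_lt)
    have h3 : 0 ≤ ‖(p : ℤ_[p])‖ := norm_nonneg _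
    nlinarith
  obtain ⟨⟨u, v, huv, _⟩, hu⟩ := hunit
  simp only at hu
  set δ := v ^ 4 - 1 with hδ
  have hδ0 : δ ≠ 0 := by
    intro h0
    apply fourth_ne hc hu
    have h1 : v ^ 4 = 1 := by linear_combination h0
    calc u ^ 4 = u ^ 4 * v ^ 4 := by rw [h1, mul_one]
      _ = (u * v) ^ 4 := by ring
      _ = 1 := by rw [huv, one_pow]
  have hup : ∀ t : ℤ_[p], mk4 1 (δ * t) 0 1 (by ring) ∈ N := fun t =>
    upper_mem hN h hg hu huv t
  apply N.isOpen_of_mem_nhds (g := 1)
  have hcont : ∀ i j : Fin 2, Continuous fun g : G p => g.1 i j := fun i j =>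
    continuous_subtype_val.matrix_elem i j
  have hδ2 : (0 : ℝ) < ‖δ ^ 2‖ := norm_pos_iff.2 (pow_ne_zero _ hδ0)
  have hδ1 : (0 : ℝ) < ‖δ‖ := norm_pos_iff.2 hδ0
  have hopen : IsOpen {g : G p | ‖g.1 0 0 - 1‖ < ‖δ ^ 2‖ ∧ ‖g.1 0 1‖ < ‖δ‖ ∧ ‖g.1 1 0‖ < ‖δ‖} := by
    refine IsOpen.inter (isOpen_lt (((hcont 0 0).sub continuous_const).norm) continuous_const)
      (IsOpen.inter (isOpen_lt ((hcont 0 1).norm) continuous_const)
        (isOpen_lt ((hcont 1 0).norm) continuous_const))
  refine Filter.mem_of_superset (hopen.mem_nhds ?_) ?_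
  · exact ⟨by simpa using hδ2, by simpa using hδ1, by simpa using hδ1⟩
  · intro g hg'
    obtain ⟨a, b, c, d, h, rfl⟩ := exists_mk4 g
    obtain ⟨h1, h2, h3⟩ := hg'
    change ‖a - 1‖ < ‖δ ^ 2‖ at h1
    change ‖b‖ < ‖δ‖ at h2
    change ‖c‖ < ‖δ‖ at h3
    obtain ⟨x, hx⟩ := dvd_of_norm_le (pow_ne_zero 2 hδ0) h1.le
    obtain ⟨y, hy⟩ := dvd_of_norm_le hδ0 h2.le
    obtain ⟨z, hz⟩ := dvd_of_norm_le hδ0 h3.le
    have ha : IsUnit a := by
      apply isUnit_of_norm_sub_one_lt
      exact lt_of_lt_of_le h1 (PadicInt.norm_le_one _)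
    obtain ⟨⟨a1, a', ha', _⟩, ha1⟩ := ha
    simp only at ha1
    subst ha1
    exact mem_of_upper hN hup h ha' (x := x) (by linear_combination hx) hy hz

end topology

/-- For every prime `p` the uncountable compact metrizable non-archimedean group
`SL_2(ℤ_p)` has the property that every normal subgroup of it is finite or of finite index. -/
theorem result (p : ℕ) [Fact p.Prime] :
    IsTopologicalGroup (SpecialLinearGroup (Fin 2) ℤ_[p]) ∧
    CompactSpace (SpecialLinearGroup (Fin 2) ℤ_[p]) ∧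
    TopologicalSpace.MetrizableSpace (SpecialLinearGroup (Fin 2) ℤ_[p]) ∧
    NonarchimedeanGroup (SpecialLinearGroup (Fin 2) ℤ_[p]) ∧
    Uncountable (SpecialLinearGroup (Fin 2) ℤ_[p]) ∧
    ∀ N : Subgroup (SpecialLinearGroup (Fin 2) ℤ_[p]), N.Normal →
      Finite N ∨ Finite (SpecialLinearGroup (Fin 2) ℤ_[p] ⧸ N) := by
  refine ⟨inferInstance, inferInstance, inferInstance, nonarch p, uncountable_G p, ?_⟩
  intro N hN
  by_cases h : ∀ g ∈ N, g = 1 ∨ g = mk4 (-1) 0 0 (-1) (by ring)
  · left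
    have hfin : (N : Set (G p)).Finite := by
      apply Set.Finite.subset (Set.toFinite {1, mk4 (-1) 0 0 (-1) (by ring)})
      intro g hg
      exact h g hg
    exact hfin.to_subtype
  · right
    push Not at h
    obtain ⟨g, hg, h1, h2⟩ := h
    obtain ⟨a, b, c, d, h, hg', hc⟩ := exists_c_ne hN hg h1 h2
    exact Subgroup.quotient_finite_of_isOpen N (isOpen_of_mem hN h hg' hc)

end Pool.Agent.Results.MP_847604_al.SpecialLinear
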